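import Mathlib

/-!
# The groups of regular-action automata over nonabelian finite groups are not lamplighter groups

The group of all length preserving bijections of `Y^*` is residually finite, whereas the restricted
wreath product `Y ≀ ℤ` is residually finite only if `Y` is abelian.
-/

set_option autoImplicit false

namespace Pool.Agent.Results.MP_e17fb9_al.NonabelianLamplighter

variable {Y : Type} [Group Y]

/-- A machine over the alphabet `Y` whose output map at every state is a left multiplication: `nxt` is
the transition map and `out q` is the group element by which the letter is multiplied on the left at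
the state `q`. -/
structure Machine (Y Q : Type) where
  nxt : Q → Y → Q
  out : Q → Y

/-- The map `Y^* → Y^*` defined at the state `q`: `run (x w) = (out q · x) run' w`, where `run'` is
the map defined at the state `nxt q x`. -/
def Machine.run {Q : Type} (A : Machine Y Q) : Q → List Y → List Y
  | _, [] => []
  | q, x :: w => (A.out q * x) :: Machine.run A (A.nxt q x) w

/-- The inverse machine. -/
def Machine.inv {Q : Type} (A : Machine Y Q) : Machine Y Q where
  nxt q y := A.nxt q ((A.out q)⁻¹ * y)
  out q := (A.out q)⁻¹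

/-- The composition of two machines. -/
def Machine.comp {Q R : Type} (A : Machine Y Q) (B : Machine Y R) : Machine Y (Q × R) where
  nxt q x := (A.nxt q.1 (B.out q.2 * x), B.nxt q.2 x)
  out q := A.out q.1 * B.out q.2

theorem Machine.inv_run {Q : Type} (A : Machine Y Q) (q : Q) (w : List Y) :
    A.inv.run q (A.run q w) = w := by
  induction w generalizing q with
  | nil => rfl
  | cons x w ih =>
    show ((A.out q)⁻¹ * (A.out q * x)) ::
      A.inv.run (A.nxt q ((A.out q)⁻¹ * (A.out q * x))) (A.run (A.nxt q x) w) = _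
    rw [inv_mul_cancel_left, ih]

theorem Machine.run_inv {Q : Type} (A : Machine Y Q) (q : Q) (w : List Y) :
    A.run q (A.inv.run q w) = w := by
  induction w generalizing q with
  | nil => rfl
  | cons x w ih =>
    show (A.out q * ((A.out q)⁻¹ * x)) ::
      A.run (A.nxt q ((A.out q)⁻¹ * x)) (A.inv.run (A.nxt q ((A.out q)⁻¹ * x)) w) = _
    rw [mul_inv_cancel_left, ih]

theorem Machine.run_comp {Q R : Type} (A : Machine Y Q) (B : Machine Y R) (q : Q × R)
    (w : List Y) : (A.comp B).run q w = A.run q.1 (B.run q.2 w) := by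
  induction w generalizing q with
  | nil => rfl
  | cons x w ih =>
    show (A.out q.1 * B.out q.2 * x) :: (A.comp B).run (A.nxt q.1 (B.out q.2 * x), B.nxt q.2 x) w =
      (A.out q.1 * (B.out q.2 * x)) :: A.run (A.nxt q.1 (B.out q.2 * x)) (B.run (B.nxt q.2 x) w)
    rw [ih, mul_assoc]

theorem Machine.length_run {Q : Type} (A : Machine Y Q) (q : Q) (w : List Y) :
    (A.run q w).length = w.length := by
  induction w generalizing q with
  | nil => rfl
  | cons x w ih =>
    show ((A.out q * x) :: A.run (A.nxt q x) w).length = _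
    rw [List.length_cons, ih, List.length_cons]

/-- The bijection of `Y^*` defined at a state of a machine. -/
def Machine.perm {Q : Type} (A : Machine Y Q) (q : Q) : Equiv.Perm (List Y) where
  toFun := A.run q
  invFun := A.inv.run q
  left_inv := A.inv_run q
  right_inv := A.run_inv q

variable (Y) in
/-- The finite state wreath power `W_Y`: the group of all maps `Y^* → Y^*` defined at some state of
some finite automaton all of whose output maps are left multiplications. -/
def W : Subgroup (Equiv.Perm (List Y)) where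
  carrier := {f | ∃ (Q : Type) (_ : Finite Q) (A : Machine Y Q) (q : Q), f = A.perm q}
  mul_mem' := by
    rintro _ _ ⟨Q, _, A, q, rfl⟩ ⟨R, _, B, r, rfl⟩
    refine ⟨Q × R, inferInstance, A.comp B, (q, r), ?_⟩
    ext1 w
    exact (A.run_comp B (q, r) w).symm
  one_mem' := by
    refine ⟨Unit, inferInstance, ⟨fun q _ => q, fun _ => 1⟩, (), ?_⟩
    ext1 w
    induction w with
    | nil => rfl
    | cons x w ih =>
      show x :: w = (1 * x) :: _
      rw [one_mul]
      congr 1
  inv_mem' := by
    rintro _ ⟨Q, _, A, q, rfl⟩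
    exact ⟨Q, inferInstance, A.inv, q, by ext1 w; rfl⟩

variable (Y) in
/-- The automaton `𝒜_Y`: in state `i`, on reading the letter `j`, it outputs `i j` and moves to the
state `j⁻¹ i`. -/
def autY : Machine Y Y where
  nxt i j := j⁻¹ * i
  out i := i

variable (Y) in
/-- The group `𝔾_Y` generated by the maps `a_i` defined at the states of `𝒜_Y`. -/
def GY : Subgroup (Equiv.Perm (List Y)) := Subgroup.closure (Set.range (autY Y).perm)

/-- The defining rules of the generators `a_i` of `𝔾_Y`. -/
theorem autY_rules (i : Y) : (autY Y).perm i [] = [] ∧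
    ∀ (j : Y) (w : List Y), (autY Y).perm i (j :: w) = (i * j) :: (autY Y).perm (j⁻¹ * i) w :=
  ⟨rfl, fun _ _ => rfl⟩

variable (Y) in
/-- The lamplighter group `Y ≀ ℤ`: the restricted wreath product, i.e. the subgroup of the elements
`(f, k)` of the unrestricted wreath product for which `f : ℤ → Y` has finite support. -/
def Lamp : Subgroup (RegularWreathProduct Y (Multiplicative ℤ)) where
  carrier := {x | (Function.mulSupport x.left).Finite}
  mul_mem' := by
    intro a b ha hb
    have h : Function.mulSupport (fun x => b.left (a.right⁻¹ * x)) ⊆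
        (fun x => a.right * x) '' Function.mulSupport b.left := by
      intro x hx
      exact ⟨a.right⁻¹ * x, hx, by simp⟩
    refine (Set.Finite.union ha ((Set.Finite.image _ hb).subset h)).subset ?_
    exact Function.mulSupport_mul _ _
  one_mem' := by
    show (Function.mulSupport (1 : Multiplicative ℤ → Y)).Finite
    rw [Function.mulSupport_one]
    exact Set.finite_empty
  inv_mem' := by
    intro a ha
    have h : Function.mulSupport (a⁻¹).left ⊆
        (fun x => a.right⁻¹ * x) '' Function.mulSupport a.left := by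
      intro x hx
      refine ⟨a.right * x, ?_, by simp⟩
      intro h1
      apply hx
      show (a.left⁻¹) (a.right * x) = 1
      rw [Pi.inv_apply, h1, inv_one]
    exact (Set.Finite.image _ ha).subset h

open Classical in
/-- The lamp with value `a` at the position `k`. -/
noncomputable def lamp (k : ℤ) (a : Y) : Lamp Y :=
  ⟨⟨Pi.mulSingle (Multiplicative.ofAdd k) a, 1⟩, by
    refine (Set.finite_singleton (Multiplicative.ofAdd k)).subset ?_
    exact Pi.mulSupport_mulSingle_subset⟩

/-- The shift. -/
def sh (k : ℤ) : Lamp Y :=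
  ⟨⟨1, Multiplicative.ofAdd k⟩, by
    show (Function.mulSupport (1 : Multiplicative ℤ → Y)).Finite
    rw [Function.mulSupport_one]
    exact Set.finite_empty⟩

theorem sh_lamp (k : ℤ) (a : Y) : sh k * lamp 0 a = lamp k a * sh k := by
  apply Subtype.ext
  apply RegularWreathProduct.ext
  · funext x
    show (1 : Y) * (Pi.mulSingle (Multiplicative.ofAdd (0 : ℤ)) a : Multiplicative ℤ → Y)
        ((Multiplicative.ofAdd k)⁻¹ * x) =
      (Pi.mulSingle (Multiplicative.ofAdd k) a : Multiplicative ℤ → Y) x * 1
    rw [one_mul, mul_one]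
    by_cases hx : x = Multiplicative.ofAdd k
    · rw [hx, inv_mul_cancel, Pi.mulSingle_eq_same]
      exact Pi.mulSingle_eq_same _ _
    · rw [Pi.mulSingle_eq_of_ne hx, Pi.mulSingle_eq_of_ne]
      intro h
      apply hx
      have h2 : Multiplicative.ofAdd k * ((Multiplicative.ofAdd k)⁻¹ * x) =
        Multiplicative.ofAdd k * 1 := by rw [h]; rfl
      rw [mul_inv_cancel_left, mul_one] at h2
      exact h2
  · show Multiplicative.ofAdd k * 1 = 1 * Multiplicative.ofAdd k
    rw [mul_one, one_mul]

theorem sh_pow (n : ℕ) : (sh 1 : Lamp Y) ^ n = sh (n : ℤ) := by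
  induction n with
  | zero => rfl
  | succ n ih =>
    rw [pow_succ, ih]
    apply Subtype.ext
    apply RegularWreathProduct.ext
    · funext x
      show (1 : Y) * 1 = 1
      rw [mul_one]
    · show Multiplicative.ofAdd (n : ℤ) * Multiplicative.ofAdd (1 : ℤ) = _
      rw [← ofAdd_add]
      push_cast
      rfl

theorem lamp_left_zero (k : ℤ) (a b : Y) :
    ((lamp k a * lamp 0 b : Lamp Y) : RegularWreathProduct Y (Multiplicative ℤ)).left =
      (Pi.mulSingle (Multiplicative.ofAdd k) a : Multiplicative ℤ → Y) *
        Pi.mulSingle (Multiplicative.ofAdd 0) b := by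
  funext x
  show (Pi.mulSingle (Multiplicative.ofAdd k) a : Multiplicative ℤ → Y) x *
    (Pi.mulSingle (Multiplicative.ofAdd 0) b : Multiplicative ℤ → Y) (1⁻¹ * x) = _
  rw [inv_one, one_mul]
  rfl

theorem lamp_comm (k : ℤ) (hk : k ≠ 0) (a b : Y) : lamp k a * lamp 0 b = lamp 0 b * lamp k a := by
  apply Subtype.ext
  apply RegularWreathProduct.ext
  · funext x
    show (Pi.mulSingle (Multiplicative.ofAdd k) a : Multiplicative ℤ → Y) x *
      (Pi.mulSingle (Multiplicative.ofAdd 0) b : Multiplicative ℤ → Y) (1⁻¹ * x) =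
      (Pi.mulSingle (Multiplicative.ofAdd 0) b : Multiplicative ℤ → Y) x *
      (Pi.mulSingle (Multiplicative.ofAdd k) a : Multiplicative ℤ → Y) (1⁻¹ * x)
    rw [inv_one, one_mul]
    by_cases hx : x = Multiplicative.ofAdd 0
    · have hx' : x ≠ Multiplicative.ofAdd k := by
        rw [hx]
        intro h
        exact hk (Multiplicative.ofAdd.injective h).symm
      rw [Pi.mulSingle_eq_of_ne hx', one_mul, mul_one]
    · rw [Pi.mulSingle_eq_of_ne hx, one_mul, mul_one]
  · rfl

/-- No injective homomorphism from `Y ≀ ℤ` to the permutations of `Y^*` has its image among the length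
preserving permutations, if `Y` is not abelian. -/
theorem no_embedding [Finite Y] (a b : Y) (hab : a * b ≠ b * a)
    (φ : Lamp Y →* Equiv.Perm (List Y)) (hφ : ∀ g w, (φ g w).length = w.length) :
    ¬ Function.Injective φ := by
  intro hinj
  have hne : (lamp 0 a * lamp 0 b : Lamp Y) ≠ lamp 0 b * lamp 0 a := by
    intro h
    have h1 := congrArg (fun g : Lamp Y =>
      (g : RegularWreathProduct Y (Multiplicative ℤ)).left (Multiplicative.ofAdd 0)) h
    simp only [lamp_left_zero, Pi.mul_apply, Pi.mulSingle_eq_same] at h1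
    exact hab h1
  have hne2 : φ (lamp 0 a * lamp 0 b) ≠ φ (lamp 0 b * lamp 0 a) := fun h => hne (hinj h)
  obtain ⟨w, hw⟩ : ∃ w, φ (lamp 0 a * lamp 0 b) w ≠ φ (lamp 0 b * lamp 0 a) w := by
    by_contra hcon
    push Not at hcon
    exact hne2 (Equiv.ext hcon)
  have hfin : Finite (List.Vector Y w.length) := by
    have := Fintype.ofFinite Y
    infer_instance
  let f : List.Vector Y w.length → List.Vector Y w.length := fun v =>
    ⟨φ (sh 1) v.1, by rw [hφ, v.2]⟩
  have hf : Function.Injective f := by
    intro v v' h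
    apply Subtype.ext
    exact (φ (sh 1)).injective (congrArg Subtype.val h)
  have hb : Function.Bijective f := Finite.injective_iff_bijective.1 hf
  let e : Equiv.Perm (List.Vector Y w.length) := Equiv.ofBijective f hb
  obtain ⟨N, hN, hN1⟩ : ∃ N : ℕ, 0 < N ∧ e ^ N = 1 :=
    ⟨orderOf e, orderOf_pos e, pow_orderOf_eq_one e⟩
  have he : ∀ (n : ℕ) (v : List.Vector Y w.length), ((e ^ n) v).1 = φ (sh n) v.1 := by
    intro n
    induction n with
    | zero =>
      intro v
      rw [pow_zero]
      have : (sh ((0 : ℕ) : ℤ) : Lamp Y) = 1 := rfl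
      rw [this, map_one]
      rfl
    | succ n ih =>
      intro v
      rw [pow_succ', Equiv.Perm.mul_apply]
      show φ (sh 1) ((e ^ n) v).1 = _
      rw [ih, ← Equiv.Perm.mul_apply, ← map_mul, ← sh_pow n, ← pow_succ', sh_pow]
  have hshift : ∀ v : List Y, v.length = w.length → φ (sh N) v = v := by
    intro v hv
    have := he N ⟨v, hv⟩
    rw [hN1] at this
    exact this.symm
  have hconj : ∀ v : List Y, v.length = w.length → φ (lamp N a) v = φ (lamp 0 a) v := by
    intro v hv
    have h1 : φ (sh N) (φ (lamp 0 a) v) = φ (lamp N a) (φ (sh N) v) := by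
      rw [← Equiv.Perm.mul_apply, ← map_mul, sh_lamp, map_mul, Equiv.Perm.mul_apply]
    rw [hshift v hv, hshift _ (by rw [hφ, hv])] at h1
    exact h1.symm
  apply hw
  rw [map_mul, map_mul, Equiv.Perm.mul_apply, Equiv.Perm.mul_apply, ← hconj _ (by rw [hφ]),
    ← hconj _ rfl, ← Equiv.Perm.mul_apply, ← Equiv.Perm.mul_apply, ← map_mul, ← map_mul,
    lamp_comm _ (by exact_mod_cast hN.ne')]

theorem length_W (g : Equiv.Perm (List Y)) (hg : g ∈ W Y) (w : List Y) :
    (g w).length = w.length := by
  obtain ⟨Q, _, A, q, rfl⟩ := hg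
  exact A.length_run q w

theorem GY_le [Finite Y] : GY Y ≤ W Y := by
  rw [GY, Subgroup.closure_le]
  rintro _ ⟨i, rfl⟩
  exact ⟨Y, inferInstance, autY Y, i, rfl⟩

/-- **Main result.** Let `Y` be a finite group which is not abelian. Then
(Q2) no subgroup of the finite state wreath power `W_Y` of the regular group `Y` is isomorphic to
`Y ≀ ℤ`; and (Q1) the group `𝔾_Y` generated by the automaton `𝒜_Y` is a subgroup of `W_Y`, it is not
isomorphic to `Y ≀ ℤ`, and neither is any of its subgroups. In particular both statements of the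
problem fail, for instance for the symmetric group on three letters. -/
theorem result :
    (∀ (Y : Type) [Group Y] [Finite Y], (∃ a b : Y, a * b ≠ b * a) →
      (∀ H : Subgroup (W Y), ¬ Nonempty (H ≃* Lamp Y)) ∧
      GY Y ≤ W Y ∧ ¬ Nonempty (GY Y ≃* Lamp Y) ∧ ∀ H : Subgroup (GY Y), ¬ Nonempty (H ≃* Lamp Y)) ∧
    ¬ (∀ (Y : Type) [Group Y] [Finite Y], Nontrivial Y → Nonempty (GY Y ≃* Lamp Y)) ∧
    ¬ (∀ (Y : Type) [Group Y] [Finite Y], Nontrivial Y →
      ∃ H : Subgroup (W Y), Nonempty (H ≃* Lamp Y)) := by
  have main : ∀ (Y : Type) [Group Y] [Finite Y], (∃ a b : Y, a * b ≠ b * a) →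
      (∀ H : Subgroup (W Y), ¬ Nonempty (H ≃* Lamp Y)) ∧
      GY Y ≤ W Y ∧ ¬ Nonempty (GY Y ≃* Lamp Y) ∧
      ∀ H : Subgroup (GY Y), ¬ Nonempty (H ≃* Lamp Y) := by
    intro Y _ _ ⟨a, b, hab⟩
    refine ⟨?_, GY_le, ?_, ?_⟩
    · rintro H ⟨e⟩
      refine no_embedding a b hab ((W Y).subtype.comp (H.subtype.comp e.symm.toMonoidHom))
        (fun g w => length_W _ (Subtype.coe_prop _) w) ?_
      exact (Subgroup.subtype_injective _).comp
        ((Subgroup.subtype_injective _).comp e.symm.injective)
    · rintro ⟨e⟩
      refine no_embedding a b hab ((GY Y).subtype.comp e.symm.toMonoidHom)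
        (fun g w => length_W _ (GY_le (Subtype.coe_prop _)) w) ?_
      exact (Subgroup.subtype_injective _).comp e.symm.injective
    · rintro H ⟨e⟩
      refine no_embedding a b hab ((GY Y).subtype.comp (H.subtype.comp e.symm.toMonoidHom))
        (fun g w => length_W _ (GY_le (Subtype.coe_prop _)) w) ?_
      exact (Subgroup.subtype_injective _).comp
        ((Subgroup.subtype_injective _).comp e.symm.injective)
  have hS3 : ∃ a b : Equiv.Perm (Fin 3), a * b ≠ b * a :=
    ⟨Equiv.swap 0 1, Equiv.swap 1 2, by decide⟩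
  refine ⟨main, fun h => ?_, fun h => ?_⟩
  · exact (main (Equiv.Perm (Fin 3)) hS3).2.2.1 (h (Equiv.Perm (Fin 3)) inferInstance)
  · obtain ⟨H, hH⟩ := h (Equiv.Perm (Fin 3)) inferInstance
    exact (main (Equiv.Perm (Fin 3)) hS3).1 H hH

end Pool.Agent.Results.MP_e17fb9_al.NonabelianLamplighter
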